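import Pool.Agent.H.MP_ec556a_an.C

set_option autoImplicit false

namespace Pool.Agent.Results.MP_ec556a_an.NotDual

open MeasureTheory

/-- Lebesgue measure on the half-line. -/
noncomputable def m : Measure ℝ := volume.restrict (Set.Ioi 0)

/-- The space `L_1 + L_∞` of classes of measurable functions. -/
noncomputable def S : Submodule ℝ (ℝ →ₘ[m] ℝ) :=
  Lp.LpSubmodule ℝ ℝ 1 m ⊔ Lp.LpSubmodule ℝ ℝ ⊤ m

/-- The norm of `L_1 + L_∞`. -/
noncomputable def N (f : ℝ →ₘ[m] ℝ) : ℝ :=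
  sInf {r | ∃ (u : Lp ℝ 1 m) (v : Lp ℝ ⊤ m), f = u.1 + v.1 ∧ r = ‖u‖ + ‖v‖}

theorem result (Y : Type*) [NormedAddCommGroup Y] [NormedSpace ℝ Y] [CompleteSpace Y] :
    ¬ ∃ (T : S ≃ₗ[ℝ] StrongDual ℝ Y) (c C : ℝ), 0 < c ∧
      ∀ f : S, c * N f ≤ ‖T f‖ ∧ ‖T f‖ ≤ C * N f := fun ⟨T, _, _, hc, h⟩ =>
  haveI : NullSingletonClass m := by unfold m; infer_instance
  haveI : SFinite m := by unfold m; infer_instance
  Pool.Agent.H.MP_ec556a_an.main (μ := m)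
    (by simp [m, Measure.restrict_eq_self _ Set.Ioo_subset_Ioi_self]) T hc h

end Pool.Agent.Results.MP_ec556a_an.NotDual
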